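import Pool.Agent.H.MP_3c4fb9_al.C

namespace Pool.Agent.Results.MP_3c4fb9_al.Suff

open Pool.Agent.H.MP_3c4fb9_al

theorem result (n m : ℕ) (blk : Fin m → Blk) (A B S T : Matrix (Fin n) (Fin n) ℂ)
    (er : (Σ k, Fin (blk k).rows) ≃ Fin n) (ec : (Σ k, Fin (blk k).cols) ≃ Fin n)
    (hS : IsUnit S) (hT : IsUnit T)
    (hA : S * A * T = Matrix.reindex er ec (KA blk))
    (hB : S * B * T = Matrix.reindex er ec (KB blk))
    (hP : ∀ d, d * {k | blk k = Blk.LT d}.ncard ≤ {k | ∃ d' < d, blk k = Blk.LT d'}.ncard)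
    (hI : ∀ e, e * {k | blk k = Blk.L e}.ncard ≤ {k | ∃ e' < e, blk k = Blk.L e'}.ncard) :
    ∃ E : Matrix (Fin n) (Fin n) ℂ, IsUnit E ∧ E * A * (E * B) = E * B * (E * A) :=
  main n m blk A B S T er ec hS hT hA hB hP hI

end Pool.Agent.Results.MP_3c4fb9_al.Suff
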